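import Pool.Agent.R235.VE.Ver4
import Pool.Agent.R235.VE.Har
import Pool.Agent.R235.VE.Enum

/-!
# MP_84c1ad_gt: the universal eigenvalue inequality for minimal submanifolds of spheres is false

For every `n ≥ 6` the Veronese manifold `ℝPⁿ`, minimally embedded in a unit sphere by the spherical
harmonics of degree two, violates
`∑_{k=1}^n λ_{j+k} ≤ (n+3) λ_j + λ_j² / λ_{j+1} + n²`
for `j` the last index with `λ_j = n`.
-/

open scoped RealInnerProductSpace ContDiff TensorProduct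

namespace Pool.Agent.Results.MP_84c1ad_gt.UniversalInequality

open R235.VE

/-- The tensor product of `ℝ^(n+1)` with itself, as a Euclidean space. -/
lemma exists_tens (n : ℕ) : ∃ T : EuclideanSpace ℝ (Fin (n + 1)) →L[ℝ]
    EuclideanSpace ℝ (Fin (n + 1)) →L[ℝ] EuclideanSpace ℝ (Fin (n + (n ^ 2 + n) + 1)),
    IsTens T := by
  let V := EuclideanSpace ℝ (Fin (n + 1))
  have hf : Module.finrank ℝ (V ⊗[ℝ] V) = n + (n ^ 2 + n) + 1 := by
    rw [Module.finrank_tensorProduct, finrank_euclideanSpace_fin]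
    ring
  let b := (stdOrthonormalBasis ℝ (V ⊗[ℝ] V)).reindex (finCongr hf)
  refine ⟨LinearMap.toContinuousBilinearMap
    ((TensorProduct.mk ℝ V V).compr₂ b.repr.toLinearEquiv.toLinearMap), fun x y z w => ?_⟩
  have h1 : ∀ x y : V, (LinearMap.toContinuousBilinearMap
    ((TensorProduct.mk ℝ V V).compr₂ b.repr.toLinearEquiv.toLinearMap)) x y = b.repr (x ⊗ₜ[ℝ] y) :=
    fun x y => rfl
  rw [h1, h1, b.repr.inner_map_map, TensorProduct.inner_tmul]

/-- For every `n ≥ 6` there is a closed connected `n`-dimensional minimal submanifold of a unit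
sphere whose spectrum violates the inequality. -/
theorem result : ∀ n : ℕ, 6 ≤ n → ∃ (p : ℕ) (M : Set (EuclideanSpace ℝ (Fin (n + p + 1)))),
    1 ≤ p ∧ IsCompact M ∧ IsConnected M ∧ IsSubmanifold n M ∧ IsMinimalInSphere n M ∧
    (∀ x ∈ M, ∃ γ, GeodesicFrame n M x γ) ∧
    ∃ lam : ℕ → ℝ, IsSpectrum n M lam ∧ lam 0 = 0 ∧ 0 < lam 1 ∧
      ∃ j : ℕ, (n + 3) * lam j + lam j ^ 2 / lam (j + 1) + (n:ℝ) ^ 2
        < ∑ k ∈ Finset.Icc 1 n, lam (j + k) := by
  intro n hn6
  have hn1 : 1 ≤ n := by omega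
  obtain ⟨T, hT⟩ := exists_tens n
  have hn : Module.finrank ℝ (EuclideanSpace ℝ (Fin (n + 1))) = n + 1 := by simp
  refine ⟨n ^ 2 + n, VM n T, by omega, VM_compact, VM_connected hn1 hn, VM_submanifold hn1 hn hT,
    VM_minimal hn1 hn hT, ?_, ?_⟩
  · rintro _ ⟨x, hx, rfl⟩
    exact exists_geoframe hn1 hn hT (by simpa using hx)
  let d : ℕ → ℕ := fun k => Module.finrank ℝ (WW (EuclideanSpace ℝ (Fin (n + 1))) n k)
  have hd0 : d 0 = 1 := finrank_WW_zero n
  have hdn : ∀ k, 1 ≤ k → n ≤ d k := fun k hk => le_finrank_WW hn hk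
  have hd : ∀ k, 1 ≤ d k := fun k => by
    rcases Nat.eq_zero_or_pos k with h | h
    · subst h; omega
    · have := hdn k h; omega
  have hS0 : SS d 0 = 0 := by simp [SS]
  have hS1 : SS d 1 = 1 := by rw [show (1:ℕ) = 0 + 1 from rfl, SS_succ, hS0, hd0]
  have hS2 : SS d 2 = 1 + d 1 := by rw [show (2:ℕ) = 1 + 1 from rfl, SS_succ, hS1]
  have hS3 : SS d 3 = 1 + d 1 + d 2 := by rw [show (3:ℕ) = 2 + 1 from rfl, SS_succ, hS2]
  have hd1 := hdn 1 le_rfl
  have hd2 := hdn 2 (by norm_num)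
  have hinj := (mu_strictMono (n := n) hn1).injective
  refine ⟨fun j => mu n (blk hd j), ⟨?_, ?_⟩, ?_, ?_, ?_⟩
  · exact (mu_strictMono hn1).monotone.comp (blk_mono hd)
  · intro μ
    by_cases h : ∃ m, μ = mu n m
    · obtain ⟨m, rfl⟩ := h
      obtain ⟨h1, h2⟩ := eig_finrank hn1 hn hT m
      refine ⟨h1, ?_⟩
      rw [h2, ← blk_encard hd m]
      congr 1
      ext j
      exact ⟨fun h => hinj h, fun h => congrArg (mu n) h⟩
    · push Not at h
      rw [eig_none hn1 hn hT h]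
      refine ⟨inferInstance, ?_⟩
      rw [finrank_bot]
      have : {j | mu n (blk hd j) = μ} = ∅ := by
        ext j
        simp only [Set.mem_ofPred_eq, Set.mem_empty_iff_false, iff_false]
        exact fun hh => h _ hh.symm
      rw [this]
      simp
  · have : blk hd 0 = 0 := (blk_iff hd 0 0).2 ⟨by rw [hS0], by rw [hS1]; norm_num⟩
    simp only [this]
    exact mu_zero n
  · have : blk hd 1 = 1 := (blk_iff hd 1 1).2 ⟨by rw [hS1], by rw [hS2]; omega⟩
    simp only [this]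
    rw [mu_one hn1]
    exact_mod_cast (by omega : 0 < n)
  · refine ⟨d 1, ?_⟩
    have hj : blk hd (d 1) = 1 := (blk_iff hd _ 1).2 ⟨by rw [hS1]; omega, by rw [hS2]; omega⟩
    have hk : ∀ k ∈ Finset.Icc 1 n, blk hd (d 1 + k) = 2 := by
      intro k hk
      rw [Finset.mem_Icc] at hk
      exact (blk_iff hd _ 2).2 ⟨by rw [hS2]; omega, by rw [hS3]; omega⟩
    have hk1 := hk 1 (by rw [Finset.mem_Icc]; omega)
    simp only [hj, hk1]
    rw [Finset.sum_congr rfl fun k hkk => by rw [hk k hkk]]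
    simp only [Finset.sum_const, Nat.card_Icc, Nat.add_sub_cancel, nsmul_eq_mul]
    rw [mu_one hn1]
    exact key_ineq hn6 (mu_two hn1)

end Pool.Agent.Results.MP_84c1ad_gt.UniversalInequality
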